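import Pool.Agent.H458.AU.Avg

/-!
# The average of `2 ^ rank` of the twists by `d` of all elliptic curves over a number field
-/

set_option autoImplicit false
set_option linter.all false

open Polynomial IsDedekindDomain Matrix NumberField
open scoped Classical

namespace Pool.Agent.H650.AU458

open Pool.Agent.N783.PF
open Pool.Agent.N874.PP (sW)
open Pool.Agent.TH115.GD (Pt)
open Pool.Agent.H459.UF (cu cu_monic cu_deg)
open Pool.Agent.N61.PF (crv_finite exists_B ht_pol)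
open Pool.Agent.H459.AV

section

variable {F : Type} [Field F] [NumberField F]

/-- The twist by `d`. -/
def tw (d : 𝓞 F) (p : 𝓞 F × 𝓞 F) : 𝓞 F × 𝓞 F := (p.1 * d ^ 2, p.2 * d ^ 3)

theorem tw_inj {d : 𝓞 F} (hd : d ≠ 0) : Function.Injective (tw d) := by
  intro p q h
  have h1 : p.1 * d ^ 2 = q.1 * d ^ 2 := congrArg Prod.fst h
  have h2 : p.2 * d ^ 3 = q.2 * d ^ 3 := congrArg Prod.snd h
  exact Prod.ext (mul_right_cancel₀ (pow_ne_zero 2 hd) h1)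
    (mul_right_cancel₀ (pow_ne_zero 3 hd) h2)

theorem coe_ne {d : 𝓞 F} (hd : d ≠ 0) : (d : F) ≠ 0 := fun h =>
  hd (RingOfIntegers.coe_injective (h.trans (map_zero _).symm))

theorem coe_mul_pow (a d : 𝓞 F) (n : ℕ) : ((a * d ^ n : 𝓞 F) : F) = (a : F) * (d : F) ^ n := by
  show algebraMap (𝓞 F) F (a * d ^ n) = algebraMap (𝓞 F) F a * algebraMap (𝓞 F) F d ^ n
  rw [map_mul, map_pow]

theorem noTwo_tw {d : 𝓞 F} (hd : d ≠ 0) (p : 𝓞 F × 𝓞 F) : NoTwo (tw d p) ↔ NoTwo p := by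
  have hd' := coe_ne hd
  have e1 : (((tw d p).1 : 𝓞 F) : F) = (p.1 : F) * (d : F) ^ 2 := coe_mul_pow _ _ _
  have e2 : (((tw d p).2 : 𝓞 F) : F) = (p.2 : F) * (d : F) ^ 3 := coe_mul_pow _ _ _
  constructor
  · intro h x hx
    apply h (x * d)
    rw [e1, e2]
    linear_combination (d : F) ^ 3 * hx
  · intro h x hx
    apply h (x / d)
    rw [e1, e2] at hx
    field_simp
    linear_combination hx

theorem disc_tw {d : 𝓞 F} (hd : d ≠ 0) {p : 𝓞 F × 𝓞 F} (hp : 4 * p.1 ^ 3 + 27 * p.2 ^ 2 ≠ 0) :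
    4 * (tw d p).1 ^ 3 + 27 * (tw d p).2 ^ 2 ≠ 0 := by
  have e : 4 * (tw d p).1 ^ 3 + 27 * (tw d p).2 ^ 2 = d ^ 6 * (4 * p.1 ^ 3 + 27 * p.2 ^ 2) := by
    unfold tw
    ring
  rw [e]
  exact mul_ne_zero (pow_ne_zero 6 hd) hp

theorem exists_bd (d : 𝓞 F) : ∃ δ : ℕ, 1 ≤ δ ∧ ∀ σ : F →+* ℂ, ‖σ (d : F)‖ ≤ δ := by
  haveI : Fintype (F →+* ℂ) := inferInstance
  obtain ⟨n, hn⟩ := exists_nat_ge (∑ σ : F →+* ℂ, ‖σ (d : F)‖)
  refine ⟨n + 1, by omega, fun σ => ?_⟩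
  have h1 := (Finset.single_le_sum (f := fun σ : F →+* ℂ => ‖σ (d : F)‖)
    (fun _ _ => norm_nonneg _) (Finset.mem_univ σ)).trans hn
  push_cast
  linarith

/-- The bounds for the coefficients. -/
theorem crv_bd {Y : ℝ} {B : ℕ} (hY : Y < 27 * ((B : ℝ) + 1) ^ 6) {p : 𝓞 F × 𝓞 F} (hp : Crv Y p)
    (σ : F →+* ℂ) : ‖σ (p.1 : F)‖ ≤ 2 * ((B : ℝ) + 1) ^ 2 ∧ ‖σ (p.2 : F)‖ ≤ ((B : ℝ) + 1) ^ 3 := by
  have h6 : 0 ≤ ((B : ℝ) + 1) ^ 6 := by positivity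
  constructor
  · have h3 := (hp.ht σ).1
    refine le_of_pow3 (by positivity) ?_ (norm_nonneg _)
    have h5 : (2 * ((B : ℝ) + 1) ^ 2) ^ 3 = 8 * ((B : ℝ) + 1) ^ 6 := by ring
    rw [h5]
    linarith
  · have h3 := (hp.ht σ).2
    refine le_of_pow_le_pow_left₀ two_ne_zero (by positivity) ?_
    have h5 : (((B : ℝ) + 1) ^ 3) ^ 2 = ((B : ℝ) + 1) ^ 6 := by ring
    rw [h5]
    linarith

/-- The bounds for the coefficients of the twist. -/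
theorem tw_bd {d : 𝓞 F} {δ : ℕ} (hδ : ∀ σ : F →+* ℂ, ‖σ (d : F)‖ ≤ δ)
    {Y : ℝ} {B : ℕ} (hY : Y < 27 * ((B : ℝ) + 1) ^ 6) {p : 𝓞 F × 𝓞 F} (hp : Crv Y p)
    (σ : F →+* ℂ) : ‖σ (((tw d p).1 : 𝓞 F) : F)‖ ≤ 2 * ((δ : ℝ) * ((B : ℝ) + 1)) ^ 2 ∧
      ‖σ (((tw d p).2 : 𝓞 F) : F)‖ ≤ ((δ : ℝ) * ((B : ℝ) + 1)) ^ 3 := by
  obtain ⟨h1, h2⟩ := crv_bd hY hp σ
  have e1 : (((tw d p).1 : 𝓞 F) : F) = (p.1 : F) * (d : F) ^ 2 := coe_mul_pow _ _ _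
  have e2 : (((tw d p).2 : 𝓞 F) : F) = (p.2 : F) * (d : F) ^ 3 := coe_mul_pow _ _ _
  have h3 := hδ σ
  rw [e1, e2, map_mul, map_mul, map_pow, map_pow, norm_mul, norm_mul, norm_pow, norm_pow]
  constructor
  · calc ‖σ (p.1 : F)‖ * ‖σ (d : F)‖ ^ 2 ≤ (2 * ((B : ℝ) + 1) ^ 2) * (δ : ℝ) ^ 2 := by
          gcongr
      _ = _ := by ring
  · calc ‖σ (p.2 : F)‖ * ‖σ (d : F)‖ ^ 3 ≤ (((B : ℝ) + 1) ^ 3) * (δ : ℝ) ^ 3 := by
          gcongr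
      _ = _ := by ring

/-- The box of the scaled polynomials of the twists. -/
theorem ht_tw {d : 𝓞 F} {δ : ℕ} (hδ : ∀ σ : F →+* ℂ, ‖σ (d : F)‖ ≤ δ)
    {Y : ℝ} {B : ℕ} (hY : Y < 27 * ((B : ℝ) + 1) ^ 6) {p : 𝓞 F × 𝓞 F} (hp : Crv Y p) :
    Ht 1 (6 * (δ * (B + 1))) (sc (tw d p).1 (tw d p).2) := by
  have hR0 : (0 : ℝ) ≤ (δ : ℝ) * ((B : ℝ) + 1) := by positivity
  obtain ⟨R, hR⟩ : ∃ R : ℝ, R = (δ : ℝ) * ((B : ℝ) + 1) := ⟨_, rfl⟩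
  have hb := tw_bd hδ hY hp
  rw [← hR] at hb hR0
  have hcast : (((6 * (δ * (B + 1)) : ℕ)) : ℝ) = 6 * R := by
    rw [hR]
    push_cast
    ring
  unfold sc
  refine ht_pol ?_ ?_
  · intro σ
    have h4 := (hb σ).1
    have e1 : (((16 * (tw d p).1 : 𝓞 F)) : F) = 16 * (((tw d p).1 : 𝓞 F) : F) := by
      change algebraMap (𝓞 F) F (16 * (tw d p).1) = 16 * algebraMap (𝓞 F) F (tw d p).1
      rw [map_mul (algebraMap (𝓞 F) F), map_ofNat]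
    rw [e1, map_mul, norm_mul, map_ofNat]
    have e2 : ‖(16 : ℂ)‖ = 16 := by norm_num
    rw [e2, hcast]
    calc 16 * ‖σ (((tw d p).1 : 𝓞 F) : F)‖ ≤ 16 * (2 * R ^ 2) := by linarith
      _ ≤ (6 * R) ^ 2 := by
        have h6 : 0 ≤ R ^ 2 := by positivity
        nlinarith
  · intro σ
    have h4 := (hb σ).2
    have e1 : (((64 * (tw d p).2 : 𝓞 F)) : F) = 64 * (((tw d p).2 : 𝓞 F) : F) := by
      change algebraMap (𝓞 F) F (64 * (tw d p).2) = 64 * algebraMap (𝓞 F) F (tw d p).2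
      rw [map_mul (algebraMap (𝓞 F) F), map_ofNat]
    rw [e1, map_mul, norm_mul, map_ofNat]
    have e2 : ‖(64 : ℂ)‖ = 64 := by norm_num
    rw [e2, hcast]
    calc 64 * ‖σ (((tw d p).2 : 𝓞 F) : F)‖ ≤ 64 * R ^ 3 := by linarith
      _ ≤ (6 * R) ^ 3 := by
        have h6 : 0 ≤ R ^ 3 := by positivity
        nlinarith

end

/-- **The average of `2 ^ rank` of the twists by `d`.** -/
theorem avg (hI : Pool.Agent.H459.AV.S_ISO) : Pool.Agent.H458.AU.S_AVG := by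
  intro F _ _ d hd0
  obtain ⟨δ, hδ1, hδ⟩ := exists_bd d
  have hδr : (1 : ℝ) ≤ δ := by exact_mod_cast hδ1
  obtain ⟨C₁, hC₁⟩ := total F
  obtain ⟨C₂, hC₂, hred⟩ := red_le F
  obtain ⟨C₃, hC₃, hrk⟩ := rk_red hI F
  obtain ⟨c, hc, B₀, hlow⟩ := crv_lower F
  obtain ⟨D, hD⟩ : ∃ D, D = Module.finrank ℚ F := ⟨_, rfl⟩
  rw [← hD] at hlow hred hrk hC₁
  obtain ⟨B₁, hB₁⟩ : ∃ B₁ : ℕ, B₁ = max B₀ 1 := ⟨_, rfl⟩
  have hB₁1 : 1 ≤ B₁ := by rw [hB₁]; exact le_max_right _ _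
  have hC0 : (0 : ℝ) ≤ C₂ * C₃ * (2 * δ) ^ D / c := by positivity
  have hC1 : (0 : ℝ) ≤ C₁ * (12 * δ) ^ (5 * D) / c := by positivity
  refine ⟨1 + C₁ * (12 * δ) ^ (5 * D) / c + C₂ * C₃ * (2 * δ) ^ D / c, by linarith,
    27 * (B₁ : ℝ) ^ 6, fun Y hY T hT => ?_⟩
  have hcf : {p : 𝓞 F × 𝓞 F | Crv Y p}.Finite := crv_finite (F := F) Pool.Agent.N490.PF.pts Y
  obtain ⟨B, hBB, hBY, hYB⟩ := exists_B B₁ Y hB₁1 hY
  have hB1 : 1 ≤ B := hB₁1.trans hBB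
  have hBr : (1 : ℝ) ≤ B := by exact_mod_cast hB1
  have hl := hlow B ((le_max_left B₀ 1).trans (by rw [← hB₁]; exact hBB)) hB1 Y hBY
  have hr := hred B hB1 Y hYB
  obtain ⟨N, hN⟩ : ∃ N : ℝ, N = ({p : 𝓞 F × 𝓞 F | Crv Y p}.ncard : ℝ) := ⟨_, rfl⟩
  have hN0 : 0 ≤ N := by rw [hN]; exact Nat.cast_nonneg _
  rw [← hN] at hl
  rw [← hN]
  show ∑ p ∈ T, (2 : ℝ) ^ rk (tw d p) ≤ _
  rw [← Finset.sum_filter_add_sum_filter_not T (fun p => NoTwo p)]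
  -- the curves without points of order two
  have k1 : ∑ p ∈ T.filter (fun p => NoTwo p), (2 : ℝ) ^ rk (tw d p) ≤
      (1 + C₁ * (12 * δ) ^ (5 * D) / c) * N := by
    obtain ⟨T₁, hT₁⟩ : ∃ T₁, T₁ = T.filter (fun p => NoTwo p) := ⟨_, rfl⟩
    rw [← hT₁]
    have hm : ∀ p ∈ T₁, Crv Y p ∧ NoTwo p := by
      intro p hp
      rw [hT₁] at hp
      exact ⟨hT p (Finset.mem_filter.1 hp).1, (Finset.mem_filter.1 hp).2⟩
    obtain ⟨h1, h2⟩ := hC₁ (6 * (δ * (B + 1))) (by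
      have : 1 ≤ δ * (B + 1) := Nat.mul_pos hδ1 (by omega)
      omega) (T₁.image (tw d)) (by
      intro q hq
      obtain ⟨p, hp, rfl⟩ := Finset.mem_image.1 hq
      obtain ⟨hp1, hp2⟩ := hm p hp
      exact ⟨(noTwo_iff _).1 ((noTwo_tw hd0 p).2 hp2), ht_tw hδ hYB hp1⟩)
    rw [Finset.sum_image (fun p _ q _ h => tw_inj hd0 h),
      Finset.card_image_of_injective _ (tw_inj hd0)] at h2
    have h3 : T₁.card ≤ {p : 𝓞 F × 𝓞 F | Crv Y p}.ncard := by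
      rw [← Set.ncard_coe_finset]
      exact Set.ncard_le_ncard (fun p hp => (hm p hp).1) hcf
    have h4 : (((6 * (δ * (B + 1)) : ℕ) : ℝ)) ^ (5 * D) ≤ (12 * δ * (B : ℝ)) ^ (5 * D) := by
      refine pow_le_pow_left₀ (by positivity) ?_ _
      push_cast
      nlinarith
    have h5 : ∑ p ∈ T₁, (2 : ℝ) ^ rk (tw d p) ≤
        (T₁.card : ℝ) + C₁ * (((6 * (δ * (B + 1)) : ℕ) : ℝ)) ^ (5 * D) := by
      have h6 : ∀ p ∈ T₁, (2 : ℝ) ^ rk (tw d p) ≤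
          (Nat.card (Sel2 (sW ((tw d p).1 : F) ((tw d p).2 : F))) : ℝ) := by
        intro p hp
        have hfin := h1 (tw d p) (Finset.mem_image_of_mem _ hp)
        have hirr := (noTwo_iff _).1 ((noTwo_tw hd0 p).2 (hm p hp).2)
        have h7 := rank_le (disc_cu hirr) hfin
        exact_mod_cast h7
      refine (Finset.sum_le_sum h6).trans ?_
      exact_mod_cast h2
    have h6 : (T₁.card : ℝ) ≤ N := by
      rw [hN]
      exact_mod_cast h3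
    refine h5.trans ?_
    calc (T₁.card : ℝ) + C₁ * (((6 * (δ * (B + 1)) : ℕ) : ℝ)) ^ (5 * D)
        ≤ N + C₁ * (12 * δ * (B : ℝ)) ^ (5 * D) :=
          add_le_add h6 (mul_le_mul_of_nonneg_left h4 (by positivity))
      _ = N + C₁ * (12 * δ) ^ (5 * D) / c * (c * (B : ℝ) ^ (5 * D)) := by
          rw [mul_pow (12 * (δ : ℝ)) (B : ℝ)]
          field_simp
      _ ≤ N + C₁ * (12 * δ) ^ (5 * D) / c * N := by
          have h8 := mul_le_mul_of_nonneg_left hl hC1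
          linarith
      _ = _ := by ring
  -- the curves with a point of order two
  have k2 : ∑ p ∈ T.filter (fun p => ¬ NoTwo p), (2 : ℝ) ^ rk (tw d p) ≤
      (C₂ * (B : ℝ) ^ (3 * D)) * (C₃ * ((δ : ℝ) * ((B : ℝ) + 1)) ^ D) := by
    have k3 : ∀ p ∈ T.filter (fun p => ¬ NoTwo p), (2 : ℝ) ^ rk (tw d p) ≤
        C₃ * ((δ : ℝ) * ((B : ℝ) + 1)) ^ D := by
      intro p hp
      obtain ⟨hp1, hp2⟩ := Finset.mem_filter.1 hp
      have hcr := hT p hp1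
      refine hrk ((δ : ℝ) * ((B : ℝ) + 1)) ?_ (tw d p) (disc_tw hd0 hcr.disc)
        (fun σ => tw_bd hδ hYB hcr σ) (fun h => hp2 ((noTwo_tw hd0 p).1 ((noTwo_iff _).2 h)))
      nlinarith
    refine (Finset.sum_le_sum k3).trans ?_
    rw [Finset.sum_const, nsmul_eq_mul]
    refine mul_le_mul_of_nonneg_right ?_ (by positivity)
    have k4 : (T.filter fun p => ¬ NoTwo p).card ≤
        {p : 𝓞 F × 𝓞 F | Crv Y p ∧ ¬ Irreducible (cu (p.1 : F) (p.2 : F))}.ncard := by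
      rw [← Set.ncard_coe_finset]
      refine Set.ncard_le_ncard (fun p hp => ?_) (hcf.subset fun p hp => hp.1)
      obtain ⟨hp1, hp2⟩ := Finset.mem_filter.1 (Finset.mem_coe.1 hp)
      exact ⟨hT p hp1, fun h => hp2 ((noTwo_iff p).2 h)⟩
    have k5 : ((T.filter fun p => ¬ NoTwo p).card : ℝ) ≤
        ({p : 𝓞 F × 𝓞 F | Crv Y p ∧ ¬ Irreducible (cu (p.1 : F) (p.2 : F))}.ncard : ℝ) := by
      exact_mod_cast k4
    exact k5.trans hr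
  have k6 : (C₂ * (B : ℝ) ^ (3 * D)) * (C₃ * ((δ : ℝ) * ((B : ℝ) + 1)) ^ D) ≤
      C₂ * C₃ * (2 * δ) ^ D / c * N := by
    have k7 : ((δ : ℝ) * ((B : ℝ) + 1)) ^ D ≤ (2 * δ * B) ^ D :=
      pow_le_pow_left₀ (by positivity) (by nlinarith) _
    calc (C₂ * (B : ℝ) ^ (3 * D)) * (C₃ * ((δ : ℝ) * ((B : ℝ) + 1)) ^ D)
        ≤ (C₂ * (B : ℝ) ^ (3 * D)) * (C₃ * (2 * δ * B) ^ D) := by gcongr
      _ = C₂ * C₃ * (2 * δ) ^ D * (B : ℝ) ^ (4 * D) := by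
          rw [mul_pow (2 * (δ : ℝ)) (B : ℝ)]
          have : 4 * D = 3 * D + D := by ring
          rw [this, pow_add]
          ring
      _ ≤ C₂ * C₃ * (2 * δ) ^ D * (B : ℝ) ^ (5 * D) := by
          refine mul_le_mul_of_nonneg_left (pow_le_pow_right₀ hBr (by omega)) (by positivity)
      _ = C₂ * C₃ * (2 * δ) ^ D / c * (c * (B : ℝ) ^ (5 * D)) := by
          field_simp
      _ ≤ _ := mul_le_mul_of_nonneg_left hl hC0
  calc _ ≤ (1 + C₁ * (12 * δ) ^ (5 * D) / c) * N + C₂ * C₃ * (2 * δ) ^ D / c * N :=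
        add_le_add k1 (k2.trans k6)
    _ = _ := by ring

end Pool.Agent.H650.AU458
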